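import Mathlib
import Pool.Agent.H19.ParentTree

namespace Pool.Agent.Results.MP_033e98_co.Upper

open Finset Pool.Agent.H19.ParentTree

open Classical in
/-- weighted degree of v -/
noncomputable def wdeg {n : ℕ} (G : SimpleGraph (Fin n)) (w : Sym2 (Fin n) → ℕ) (v : Fin n) : ℕ :=
  ∑ u ∈ univ.filter (fun u => G.Adj v u), w s(v, u)

/-- irregularity strength -/
noncomputable def strength {n : ℕ} (G : SimpleGraph (Fin n)) : ℕ :=
  sInf {k | ∃ w : Sym2 (Fin n) → ℕ, (∀ e ∈ G.edgeSet, 1 ≤ w e ∧ w e ≤ k) ∧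
    Function.Injective (wdeg G w)}

/-- number of leaves: vertices with exactly one neighbour -/
noncomputable def leaves {n : ℕ} (G : SimpleGraph (Fin n)) : ℕ :=
  {v | ∃! u, G.Adj v u}.ncard

def pf (p v : ℕ) : ℕ := if v ≤ p then 0 else if v ≤ 2 * p then v - p else 2 * p

theorem pf_spec (p v : ℕ) : (v ≤ p ∧ pf p v = 0) ∨ (p < v ∧ v ≤ 2 * p ∧ pf p v + p = v) ∨
    (2 * p < v ∧ pf p v = 2 * p) := by
  unfold pf; split_ifs <;> omega

def par (p : ℕ) (v : Fin (2 * p + 2)) : Fin (2 * p + 2) :=
  ⟨pf p v.1, by have := pf_spec p v.1; omega⟩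

theorem adj (p : ℕ) (v u : Fin (2 * p + 2)) : (pgraph (par p)).Adj v u ↔
    v.1 ≠ u.1 ∧ (u.1 = pf p v.1 ∨ v.1 = pf p u.1) := by
  rw [padj]; simp [par, Fin.ext_iff]

theorem adjp (p : ℕ) (v : Fin (2 * p + 2)) (h : v.1 ≠ 0) : (pgraph (par p)).Adj v (par p v) := by
  refine (adj p _ _).2 ⟨?_, Or.inl rfl⟩
  have := pf_spec p v.1
  show v.1 ≠ pf p v.1
  omega

theorem tree (p : ℕ) : (pgraph (par p)).IsTree := by
  refine isTree (par p) (fun v => v.1) 0 (Fin.ext (by simp [par, pf])) fun x hx => ?_
  have h : x.1 ≠ 0 := fun e => hx (Fin.ext e)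
  have := pf_spec p x.1
  show pf p x.1 < x.1
  omega

theorem lv (p : ℕ) (hp : 2 ≤ p) : leaves (pgraph (par p)) = p := by
  let f : Fin p → Fin (2 * p + 2) := fun i =>
    ⟨if i.1 + 1 < p then p + 1 + i.1 else 2 * p + 1, by split_ifs <;> omega⟩
  have hf : Function.Injective f := by
    intro i j h
    have h1 := Fin.ext_iff.1 h
    have := i.2
    have := j.2
    simp only [f] at h1
    apply Fin.ext
    split_ifs at h1 <;> omega
  have key : {v | ∃! u, (pgraph (par p)).Adj v u} = f '' Set.univ := by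
    ext v
    have hv := v.2
    have s1 := pf_spec p v.1
    constructor
    · rintro ⟨u, -, hu⟩
      by_cases c1 : v.1 = 0
      · have a1 := hu ⟨1, by omega⟩ ((adj p _ _).2 (by have := pf_spec p 1; simp only; omega))
        have a2 := hu ⟨2, by omega⟩ ((adj p _ _).2 (by have := pf_spec p 2; simp only; omega))
        have := Fin.ext_iff.1 (a1.trans a2.symm)
        simp at this
      have a1 := hu (par p v) (adjp p v c1)
      by_cases c2 : v.1 ≤ p
      · have a2 := hu ⟨v.1 + p, by omega⟩ ((adj p _ _).2 (by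
          have := pf_spec p (v.1 + p); simp only; omega))
        have := Fin.ext_iff.1 (a1.trans a2.symm)
        simp only [par] at this
        omega
      by_cases c3 : v.1 = 2 * p
      · have a2 := hu ⟨2 * p + 1, by omega⟩ ((adj p _ _).2 (by
          have := pf_spec p (2 * p + 1); simp only; omega))
        have := Fin.ext_iff.1 (a1.trans a2.symm)
        simp only [par] at this
        omega
      by_cases c4 : v.1 = 2 * p + 1
      · exact ⟨⟨p - 1, by omega⟩, trivial, Fin.ext (by simp only [f]; split_ifs <;> omega)⟩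
      · exact ⟨⟨v.1 - p - 1, by omega⟩, trivial, Fin.ext (by simp only [f]; split_ifs <;> omega)⟩
    · rintro ⟨i, -, hi⟩
      have h1 := Fin.ext_iff.1 hi
      have := i.2
      simp only [f] at h1
      have h2 : (p < v.1 ∧ v.1 < 2 * p) ∨ v.1 = 2 * p + 1 := by split_ifs at h1 <;> omega
      refine ⟨par p v, adjp p v (by omega), fun u hu => ?_⟩
      have h3 := (adj p v u).1 hu
      have := pf_spec p u.1
      have := u.2
      apply Fin.ext
      simp only [par]
      omega
  rw [leaves, key, Set.ncard_image_of_injective _ hf, Set.ncard_univ, Nat.card_fin]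

theorem str (p : ℕ) (hp : 2 ≤ p) : strength (pgraph (par p)) ≠ p := by
  classical
  intro h
  have hne : {k | ∃ w : Sym2 (Fin (2 * p + 2)) → ℕ,
      (∀ e ∈ (pgraph (par p)).edgeSet, 1 ≤ w e ∧ w e ≤ k) ∧
      Function.Injective (wdeg (pgraph (par p)) w)}.Nonempty := by
    by_contra e
    rw [Set.not_nonempty_iff_eq_empty] at e
    rw [strength, e, Nat.sInf_empty] at h
    omega
  have hm := Nat.sInf_mem hne
  rw [show sInf _ = strength (pgraph (par p)) from rfl, h] at hm
  obtain ⟨w, hw, hinj⟩ := hm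
  have hb : ∀ v ∈ univ.erase (0 : Fin (2 * p + 2)), wdeg (pgraph (par p)) w v ∈ Icc 1 (2 * p) := by
    intro v hv
    have h0 : v.1 ≠ 0 := fun e => (mem_erase.1 hv).1 (Fin.ext e)
    have s1 := pf_spec p v.1
    have hv2 := v.2
    have a1 : (pgraph (par p)).Adj v (par p v) := adjp p v h0
    rw [mem_Icc, wdeg]
    constructor
    · exact (hw s(v, par p v) a1).1.trans (single_le_sum (f := fun u => w s(v, u))
        (fun _ _ => Nat.zero_le _) (mem_filter.2 ⟨mem_univ _, a1⟩))
    · refine (sum_le_card_nsmul _ _ p fun u hu => (hw s(v, u) (mem_filter.1 hu).2).2).trans ?_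
      rw [smul_eq_mul]
      refine Nat.mul_le_mul_right _ ((card_le_card (t := {par p v,
        ⟨if v.1 ≤ p then v.1 + p else 2 * p + 1, by split_ifs <;> omega⟩}) ?_).trans card_le_two)
      intro u hu
      have h3 := (adj p v u).1 (mem_filter.1 hu).2
      have := pf_spec p u.1
      have := u.2
      simp only [mem_insert, mem_singleton, Fin.ext_iff, par]
      split_ifs <;> omega
  have := card_le_card_of_injOn _ hb (hinj.injOn)
  simp at this

theorem result (p : ℕ) (hp : 2 ≤ p) (N : ℕ)
    (h : ∀ n ≤ N, ∀ T : SimpleGraph (Fin n), T.IsTree → leaves T = p → strength T = p) :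
    N ≤ 2 * p + 1 := by
  by_contra c
  exact str p hp (h _ (by omega) _ (tree p) (lv p hp))

end Pool.Agent.Results.MP_033e98_co.Upper
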